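import Pool.Agent.Lib.MP_3650db_nt.Mg.G002

set_option autoImplicit false

/-!
Assembly: `3 * 2 ^ t` divides the class numbers of `ℚ(√d), ℚ(√(d+1)), …, ℚ(√(d+n))` for infinitely
many `d < -n`.  Here `d = -(27 L² m² + n + 1)`, `L = (n + 1)!`, `m` a large prime in one residue
class.
-/

namespace Pool.Agent.Lib.MP3650db

open NumberField

theorem three_two_pow_all (n t : ℕ) : Set.Infinite {d : ℤ | d + (n : ℤ) < 0 ∧ ∀ i : ℕ, i ≤ n →
      ∀ (K : Type) [Field K] [NumberField K],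
        (∃ x : K, x ^ 2 = (((d + (i : ℤ)) : ℤ) : K) ∧ Algebra.adjoin ℚ {x} = ⊤) →
          3 * 2 ^ t ∣ NumberField.classNumber K} := by
  apply Set.infinite_of_forall_exists_lt
  intro a
  set L : ℕ := (n + 1).factorial with hLdef
  have hL : 0 < L := Nat.factorial_pos _
  obtain ⟨Q, m0, hQ, hcop, hclass⟩ := two_pow_class n t L hL
  obtain ⟨p, hp1, hp, hpmod⟩ := Nat.forall_exists_prime_gt_and_modEq (4 * L ^ 2 + 2 + a.natAbs)
    hQ.ne' hcop
  have hpL : (4 * (L : ℤ) ^ 2 + 2 + |a|) ≤ p := by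
    rw [← Int.natCast_natAbs]
    exact_mod_cast hp1.le
  have hLz : (0 : ℤ) < L := by exact_mod_cast hL
  have ha0 : 0 ≤ |a| := abs_nonneg a
  refine ⟨-(27 * ((L : ℤ) * p) ^ 2 + (n + 1)), ⟨by nlinarith [sq_nonneg ((L : ℤ) * p)], ?_⟩, ?_⟩
  · intro i hi K _ _ hK
    have hc : ((n + 1 - i : ℕ) : ℤ) = n + 1 - i := by
      have : i ≤ n + 1 := by omega
      push_cast [this]
      ring
    have hcpos' : 0 < n + 1 - i := by omega
    have hcpos : (0 : ℤ) < ((n + 1 - i : ℕ) : ℤ) := by exact_mod_cast hcpos'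
    have h3 : 3 ∣ classNumber K := by
      have hcd : (n + 1 - i) ∣ L := Nat.dvd_factorial (by omega) (by omega)
      obtain ⟨q, hq⟩ := hcd
      have hqz : (L : ℤ) = ((n + 1 - i : ℕ) : ℤ) * q := by exact_mod_cast hq
      have hqpos : (0 : ℤ) < q := by
        rcases Nat.eq_zero_or_pos q with h | h
        · rw [h, mul_zero] at hq; omega
        · exact_mod_cast h
      refine family_three (L : ℤ) (p : ℤ) ((n + 1 - i : ℕ) : ℤ) (4 * q * L) p hp rfl hLz hcpos ?_ ?_
        ?_ ?_ K ?_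
      · nlinarith
      · rw [hqz]; ring
      · positivity
      · have h1 : (q : ℤ) ≤ L := by nlinarith
        nlinarith
      · obtain ⟨x, hx, hgen⟩ := hK
        refine ⟨x, ?_, hgen⟩
        rw [hx]
        congr 1
        rw [hc]
        ring
    have h2 : 2 ^ t ∣ classNumber K := by
      refine hclass p hpmod (n + 1 - i) hcpos' (by omega) K ?_
      obtain ⟨x, hx, hgen⟩ := hK
      refine ⟨x, ?_, hgen⟩
      rw [hx]
      congr 1
      rw [hc]
      ring
    exact Nat.Coprime.mul_dvd_of_dvd_of_dvd (Nat.Coprime.pow_right t (by norm_num)) h3 h2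
  · have h1 : (p : ℤ) ≤ ((L : ℤ) * p) ^ 2 := by
      have h0 : (1 : ℤ) ≤ p := by nlinarith
      have h1 : (p : ℤ) ≤ (L : ℤ) * p := by nlinarith
      nlinarith
    have h2 : -|a| ≤ a := neg_abs_le a
    nlinarith

end Pool.Agent.Lib.MP3650db
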