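import Mathlib

set_option autoImplicit false

/-!
A class number criterion for imaginary quadratic fields: if `w ^ 2 = X ^ 2 - 4 * Y ^ 3 < 0` with `X`, `Y`
coprime, the field is generated by `w`, it is not `ℚ(√-3)`, and `a ^ 3 - 3 * Y * a = X` has no integer
solution, then `3` divides the class number.
-/

namespace Pool.Agent.Lib.MP3650db

open NumberField ComplexConjugate

section Aux

variable {K : Type} [Field K] [NumberField K]

/-- every element of `K` is `r + s * w` when `w` generates and `w ^ 2` is rational -/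
theorem exists_repr (w : K) (n : ℤ) (hw : w ^ 2 = (n : K))
    (hgen : Algebra.adjoin ℚ {w} = ⊤) (y : K) :
    ∃ r s : ℚ, y = (r : K) + (s : K) * w := by
  have hy : y ∈ Algebra.adjoin ℚ {w} := by rw [hgen]; trivial
  induction hy using Algebra.adjoin_induction with
  | mem x hx =>
    rw [Set.mem_singleton_iff] at hx
    exact ⟨0, 1, by simp [hx]⟩
  | algebraMap r =>
    exact ⟨r, 0, by simp⟩
  | add x z _ _ hx hz =>
    obtain ⟨r, s, rfl⟩ := hx
    obtain ⟨r', s', rfl⟩ := hz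
    exact ⟨r + r', s + s', by push_cast; ring⟩
  | mul x z _ _ hx hz =>
    obtain ⟨r, s, rfl⟩ := hx
    obtain ⟨r', s', rfl⟩ := hz
    refine ⟨r * r' + s * s' * n, r * s' + s * r', ?_⟩
    push_cast
    linear_combination (s : K) * s' * hw

theorem conj_eq_neg (W : ℂ) (n : ℤ) (hn : n < 0) (hW : W ^ 2 = (n : ℂ)) : conj W = -W := by
  have h1 := congrArg Complex.re hW
  have h2 := congrArg Complex.im hW
  simp [pow_two] at h1 h2
  have hre : W.re = 0 := by
    have h3 : W.re * W.im = 0 := by linarith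
    rcases mul_eq_zero.1 h3 with h | h
    · exact h
    · exfalso
      rw [h] at h1
      have : (n : ℝ) < 0 := by exact_mod_cast hn
      nlinarith [mul_self_nonneg W.re]
  apply Complex.ext <;> simp [hre]

theorem rat_isIntegral (q : ℚ) (hq : IsIntegral ℤ (q : ℂ)) : ∃ a : ℤ, (a : ℂ) = (q : ℂ) := by
  have h : IsIntegral ℤ q := by
    have : (q : ℂ) = algebraMap ℚ ℂ q := by simp
    rw [this] at hq
    exact (isIntegral_algebraMap_iff (algebraMap ℚ ℂ).injective).1 hq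
  obtain ⟨a, ha⟩ := IsIntegrallyClosed.isIntegral_iff.1 h
  refine ⟨a, ?_⟩
  rw [← ha]
  simp

variable (φ : K →+* ℂ)

theorem trace_norm_int (w : K) (n : ℤ) (hn : n < 0) (hw : w ^ 2 = (n : K))
    (hgen : Algebra.adjoin ℚ {w} = ⊤) (y : 𝓞 K) :
    (∃ a : ℤ, φ y + conj (φ y) = a) ∧ (∃ b : ℤ, φ y * conj (φ y) = b) := by
  obtain ⟨r, s, hrs⟩ := exists_repr w n hw hgen (y : K)
  have hW : (φ w) ^ 2 = (n : ℂ) := by rw [← map_pow, hw]; simp
  have hc := conj_eq_neg (φ w) n hn hW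
  have hφ : φ y = (r : ℂ) + s * φ w := by rw [hrs]; simp
  have hcφ : conj (φ y) = (r : ℂ) - s * φ w := by
    rw [hφ]; simp [hc]; ring
  have hint : IsIntegral ℤ (φ y) := by
    have : IsIntegral ℤ (y : K) := y.2
    exact this.map (φ.toIntAlgHom)
  have hint' : IsIntegral ℤ (conj (φ y)) := by
    have := hint.map ((starRingEnd ℂ).toIntAlgHom)
    simpa using this
  constructor
  · have h1 : φ y + conj (φ y) = ((2 * r : ℚ) : ℂ) := by
      rw [hcφ, hφ]; push_cast; ring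
    have h2 : IsIntegral ℤ (((2 * r : ℚ)) : ℂ) := by
      rw [← h1]; exact hint.add hint'
    obtain ⟨a, ha⟩ := rat_isIntegral _ h2
    exact ⟨a, by rw [h1, ha]⟩
  · have h1 : φ y * conj (φ y) = ((r ^ 2 - s ^ 2 * n : ℚ) : ℂ) := by
      rw [hcφ, hφ]; push_cast; linear_combination (-(s : ℂ) ^ 2) * hW
    have h2 : IsIntegral ℤ (((r ^ 2 - s ^ 2 * n : ℚ)) : ℂ) := by
      rw [← h1]; exact hint.mul hint'
    obtain ⟨a, ha⟩ := rat_isIntegral _ h2
    exact ⟨a, by rw [h1, ha]⟩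

/-- units of an imaginary quadratic field other than `ℚ(√-3)` are cubes -/
theorem unit_cube (w : K) (n : ℤ) (hn : n < 0) (hw : w ^ 2 = (n : K))
    (hgen : Algebra.adjoin ℚ {w} = ⊤) (h3 : ∀ q : ℚ, (n : ℚ) ≠ -3 * q ^ 2) (u : (𝓞 K)ˣ) :
    ∃ e : 𝓞 K, (u : 𝓞 K) = e ^ 3 := by
  obtain ⟨φ⟩ : Nonempty (K →+* ℂ) := inferInstance
  obtain ⟨⟨t, ht⟩, ⟨b, hb⟩⟩ := trace_norm_int φ w n hn hw hgen (u : 𝓞 K)
  obtain ⟨-, ⟨b', hb'⟩⟩ := trace_norm_int φ w n hn hw hgen ((u⁻¹ : (𝓞 K)ˣ) : 𝓞 K)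
  have huu : φ ((u : 𝓞 K) : K) * φ (((u⁻¹ : (𝓞 K)ˣ) : 𝓞 K) : K) = 1 := by
    rw [← map_mul, ← map_mul]
    simp
  have hbb : b * b' = 1 := by
    have : ((b * b' : ℤ) : ℂ) = 1 := by
      push_cast
      rw [← hb, ← hb']
      have h := congrArg (fun z => z * conj z) huu
      simp only [map_mul, map_one, mul_one] at h
      linear_combination h
    exact_mod_cast this
  have hbnn : 0 ≤ b := by
    have h1 : ((Complex.normSq (φ ((u : 𝓞 K) : K)) : ℝ) : ℂ) = (b : ℂ) := by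
      rw [← hb, Complex.mul_conj]
    have h2 : Complex.normSq (φ ((u : 𝓞 K) : K)) = (b : ℝ) := by exact_mod_cast h1
    have h3 := Complex.normSq_nonneg (φ ((u : 𝓞 K) : K))
    rw [h2] at h3
    exact_mod_cast h3
  have hb1 : b = 1 := by
    rcases Int.eq_one_or_neg_one_of_mul_eq_one hbb with h | h
    · exact h
    · omega
  subst hb1
  set z : ℂ := φ ((u : 𝓞 K) : K) with hz
  -- z^2 - t z + 1 = 0
  have hquad : z ^ 2 - t * z + 1 = 0 := by
    have h1 : z * conj z = 1 := by rw [hb]; simp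
    linear_combination z * ht - h1
  have ht2 : t ^ 2 ≤ 4 := by
    have hre : 2 * z.re = t := by
      have := congrArg Complex.re ht
      simp at this
      linarith
    have hns : z.re ^ 2 + z.im ^ 2 = 1 := by
      have h1 : ((Complex.normSq z : ℝ) : ℂ) = 1 := by
        rw [← Complex.mul_conj, hb]; simp
      have h2 : Complex.normSq z = 1 := by exact_mod_cast h1
      rw [Complex.normSq_apply] at h2
      nlinarith
    have : (t : ℝ) ^ 2 ≤ 4 := by
      rw [← hre]; nlinarith [sq_nonneg z.im]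
    exact_mod_cast this
  have ht3 : -2 ≤ t ∧ t ≤ 2 := by
    constructor <;> nlinarith
  have hinj : Function.Injective φ := φ.injective
  -- reduce to the ring of integers
  have hK : ((u : 𝓞 K) : K) ^ 2 - t * ((u : 𝓞 K) : K) + 1 = 0 := by
    apply hinj
    simpa using hquad
  have hO : (u : 𝓞 K) ^ 2 - t * (u : 𝓞 K) + 1 = 0 := by
    apply RingOfIntegers.ext
    simpa using hK
  obtain ⟨ht4, ht5⟩ := ht3
  have hcase : t = -2 ∨ t = 0 ∨ t = 2 ∨ t ^ 2 = 1 := by
    interval_cases t <;> simp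
  rcases hcase with h | h | h | h
  · subst h
    have h1 : ((u : 𝓞 K) + 1) ^ 2 = 0 := by
      push_cast at hO
      linear_combination hO
    have h2 : (u : 𝓞 K) + 1 = 0 := by simpa using h1
    exact ⟨-1, by linear_combination h2⟩
  · subst h
    push_cast at hO
    refine ⟨-(u : 𝓞 K), ?_⟩
    linear_combination (u : 𝓞 K) * hO
  · subst h
    have h1 : ((u : 𝓞 K) - 1) ^ 2 = 0 := by
      push_cast at hO
      linear_combination hO
    have h2 : (u : 𝓞 K) - 1 = 0 := by simpa using h1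
    exact ⟨1, by linear_combination h2⟩
  · exfalso
    obtain ⟨r, s, hrs⟩ := exists_repr w n hw hgen ((u : 𝓞 K) : K)
    have hW : (φ w) ^ 2 = (n : ℂ) := by rw [← map_pow, hw]; simp
    have hc := conj_eq_neg (φ w) n hn hW
    have hφ : z = (r : ℂ) + s * φ w := by rw [hz, hrs]; simp
    have hcφ : conj z = (r : ℂ) - s * φ w := by
      rw [hφ]; simp [hc]; ring
    have h2 : (4 * s ^ 2 * n : ℂ) = -3 := by
      have hsum : (2 * r : ℂ) = t := by
        rw [← ht, hcφ]; rw [hφ]; ring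
      have hprod : (r ^ 2 - s ^ 2 * n : ℂ) = 1 := by
        have : z * conj z = 1 := by rw [hb]; simp
        rw [hcφ, hφ] at this
        linear_combination this + (s : ℂ) ^ 2 * hW
      have ht1 : (t : ℂ) ^ 2 = 1 := by exact_mod_cast h
      linear_combination (2 * r + t) * hsum - 4 * hprod + ht1
    have h4 : (4 * s ^ 2 * n : ℚ) = -3 := by exact_mod_cast h2
    have hs : s ≠ 0 := by
      rintro rfl
      norm_num at h4
    apply h3 (1 / (2 * s))
    field_simp
    linarith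

end Aux

/-- The class number criterion. -/
theorem three_dvd_classNumber (K : Type) [Field K] [NumberField K] (w : K) (X Y : ℤ)
    (hneg : X ^ 2 - 4 * Y ^ 3 < 0)
    (hw : w ^ 2 = ((X ^ 2 - 4 * Y ^ 3 : ℤ) : K)) (hgen : Algebra.adjoin ℚ {w} = ⊤)
    (hcop : IsCoprime X Y)
    (h3 : ∀ q : ℚ, ((X ^ 2 - 4 * Y ^ 3 : ℤ) : ℚ) ≠ -3 * q ^ 2)
    (hroot : ∀ a : ℤ, a ^ 3 - 3 * Y * a ≠ X) :
    3 ∣ classNumber K := by
  classical
  by_contra hnd
  obtain ⟨φ⟩ : Nonempty (K →+* ℂ) := inferInstance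
  -- the two conjugate elements
  have hint : ∀ v : K, v ^ 2 = ((X ^ 2 - 4 * Y ^ 3 : ℤ) : K) → IsIntegral ℤ ((X + v) / 2 : K) := by
    intro v hv
    refine ⟨Polynomial.X ^ 2 - Polynomial.C X * Polynomial.X + Polynomial.C (Y ^ 3), ?_, ?_⟩
    · monicity!
    · simp only [Polynomial.eval₂_add, Polynomial.eval₂_sub, Polynomial.eval₂_mul,
        Polynomial.eval₂_pow, Polynomial.eval₂_X, Polynomial.eval₂_C]
      push_cast at hv
      simp only [algebraMap_int_eq, eq_intCast, Int.cast_pow]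
      linear_combination (1 / 4 : K) * hv
  let α : 𝓞 K := ⟨(X + w) / 2, hint w hw⟩
  let α' : 𝓞 K := ⟨(X + (-w)) / 2, hint (-w) (by rw [neg_sq, hw])⟩
  have hαc : ((α : 𝓞 K) : K) = (X + w) / 2 := rfl
  have hα'c : ((α' : 𝓞 K) : K) = (X + (-w)) / 2 := rfl
  have hsum : α + α' = (X : 𝓞 K) := by
    apply RingOfIntegers.ext
    simp only [map_add, hαc, hα'c, map_intCast]
    ring
  have hprod : α * α' = (Y : 𝓞 K) ^ 3 := by
    apply RingOfIntegers.ext
    simp only [map_mul, map_pow, hαc, hα'c, map_intCast]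
    push_cast at hw
    linear_combination (-1 / 4 : K) * hw
  have hcopE : IsCoprime α α' := by
    obtain ⟨p, q, hpq⟩ := (hcop.pow_right : IsCoprime X (Y ^ 3))
    have h1 : (p : 𝓞 K) * (α + α') + (q : 𝓞 K) * (α * α') = 1 := by
      rw [hsum, hprod]
      exact_mod_cast hpq
    exact ⟨(p : 𝓞 K) + q * α', p, by linear_combination h1⟩
  have hcopI : IsCoprime (Ideal.span {α}) (Ideal.span {α'}) := by
    rw [Ideal.isCoprime_span_singleton_iff]
    exact hcopE
  have hprodI : Ideal.span {α} * Ideal.span {α'} = (Ideal.span {(Y : 𝓞 K)}) ^ 3 := by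
    rw [Ideal.span_singleton_mul_span_singleton, Ideal.span_singleton_pow, hprod]
  obtain ⟨I, hI⟩ := exists_eq_pow_of_mul_eq_pow_of_coprime hcopI hprodI
  have hcard : Nat.Coprime 3 (Fintype.card (ClassGroup (𝓞 K))) := by
    rw [Nat.coprime_comm]
    exact ((Nat.Prime.coprime_iff_not_dvd Nat.prime_three).2 hnd).symm
  have hIp : I.IsPrincipal := by
    apply Ideal.IsPrincipal.of_isPrincipal_pow_of_coprime hcard
    rw [← hI]
    exact ⟨α, rfl⟩
  obtain ⟨β, hβ⟩ := hIp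
  have hassoc : Associated (β ^ 3) α := by
    rw [← Ideal.span_singleton_eq_span_singleton, ← Ideal.span_singleton_pow, hI, hβ]
  obtain ⟨u, hu⟩ := hassoc
  obtain ⟨e, he⟩ := unit_cube w _ hneg hw hgen h3 u
  have hγ : α = (β * e) ^ 3 := by
    rw [← hu, he]; ring
  set γ : 𝓞 K := β * e with hγdef
  obtain ⟨⟨a, ha⟩, ⟨b, hb⟩⟩ := trace_norm_int φ w _ hneg hw hgen γ
  have hW : (φ w) ^ 2 = ((X ^ 2 - 4 * Y ^ 3 : ℤ) : ℂ) := by rw [← map_pow, hw, map_intCast]
  have hc := conj_eq_neg (φ w) _ hneg hW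
  have hφα : φ ((α : 𝓞 K) : K) = (X + φ w) / 2 := by
    rw [hαc, map_div₀, map_add, map_intCast, map_ofNat]
  have hcφα : conj (φ ((α : 𝓞 K) : K)) = (X - φ w) / 2 := by
    rw [hφα, map_div₀, map_add, map_intCast, map_ofNat, hc]; ring
  have hγ3 : φ ((α : 𝓞 K) : K) = (φ ((γ : 𝓞 K) : K)) ^ 3 := by
    rw [hγ]; simp
  have hcγ3 : conj (φ ((α : 𝓞 K) : K)) = (conj (φ ((γ : 𝓞 K) : K))) ^ 3 := by
    rw [hγ3]; simp
  have hb3 : b ^ 3 = Y ^ 3 := by
    have h1 : ((b ^ 3 : ℤ) : ℂ) = ((Y ^ 3 : ℤ) : ℂ) := by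
      push_cast
      rw [← hb, mul_pow, ← hγ3, ← hcγ3, hcφα, hφα]
      push_cast at hW
      linear_combination (-1 / 4 : ℂ) * hW
    exact_mod_cast h1
  have hbY : b = Y := (Odd.strictMono_pow (by decide : Odd 3)).injective hb3
  apply hroot a
  have h1 : ((a ^ 3 - 3 * Y * a : ℤ) : ℂ) = ((X : ℤ) : ℂ) := by
    push_cast
    have h2 : (X : ℂ) = φ ((α : 𝓞 K) : K) + conj (φ ((α : 𝓞 K) : K)) := by
      rw [hcφα, hφα]; ring
    rw [h2, hcγ3, hγ3, ← hbY, ← ha, ← hb]
    ring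
  exact_mod_cast h1

end Pool.Agent.Lib.MP3650db
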